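import Pool.Agent.helper62.RS.SpecG
import Pool.Agent.helper62.QU.All

set_option autoImplicit false

open scoped MatrixGroups ContDiff Topology UpperHalfPlane
open UpperHalfPlane MeasureTheory Filter Set

namespace Pool.Agent.RS

theorem GRI_dec (g : SL(2, ℝ)) (hg : g 1 0 ≠ 0) :
    g = nM ((g 0 0 - 1) / g 1 0) * lM (g 1 0) * nM ((g 1 1 - 1) / g 1 0) := by
  have hdet : g 0 0 * g 1 1 - g 0 1 * g 1 0 = 1 := by
    have h := g.det_coe
    rw [Matrix.det_fin_two] at h
    exact h
  apply Subtype.ext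
  rw [Matrix.SpecialLinearGroup.coe_mul, Matrix.SpecialLinearGroup.coe_mul]
  change (g : Matrix (Fin 2) (Fin 2) ℝ) =
    !![1, (g 0 0 - 1) / g 1 0; 0, 1] * !![1, 0; g 1 0, 1] * !![1, (g 1 1 - 1) / g 1 0; 0, 1]
  rw [Matrix.mul_fin_two, Matrix.mul_fin_two]
  ext i j
  fin_cases i <;> fin_cases j
  · change g 0 0 = (1 * 1 + (g 0 0 - 1) / g 1 0 * g 1 0) * 1 + _ * 0
    rw [div_mul_cancel₀ _ hg]
    ring
  · change g 0 1 = (1 * 1 + (g 0 0 - 1) / g 1 0 * g 1 0) * ((g 1 1 - 1) / g 1 0) +
      (1 * 0 + (g 0 0 - 1) / g 1 0 * 1) * 1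
    rw [div_mul_cancel₀ _ hg]
    field_simp
    linear_combination (-1 : ℝ) * hdet
  · change g 1 0 = (0 * 1 + 1 * g 1 0) * 1 + (0 * 0 + 1 * 1) * 0
    ring
  · change g 1 1 = (0 * 1 + 1 * g 1 0) * ((g 1 1 - 1) / g 1 0) + (0 * 0 + 1 * 1) * 1
    field_simp
    ring

theorem GRI (hGLC : GLC_stmt) (hGMG : GMG_stmt) (hGLI : GLI_stmt) : GRI_stmt := by
  obtain ⟨hlc, hsc, hcpt, -, -, -, -, -, -, -, -, hnA, hlA, -, -, -, -, hna, hla, -⟩ := hGLC
  have := hlc
  have := hsc
  obtain ⟨hdG, hK, hsf, -, -⟩ := hGMG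
  have := hsf
  have : IsFiniteMeasureOnCompacts mG := ⟨fun K hK' => hK K hK'⟩
  have : mG.IsMulLeftInvariant := ⟨fun g => hGLI g⟩
  have : (volume : Measure ℍ).IsOpenPosMeasure := QU.A_INV.2.2.1
  have : mG.IsOpenPosMeasure := by
    refine isOpenPosMeasure_of_mulLeftInvariant_of_compact (dG (Metric.closedBall I 1))
      (hcpt _ (isCompact_closedBall I 1)) ?_
    rw [(hdG _ Metric.isClosed_closedBall.measurableSet).2]
    exact (Metric.measure_closedBall_pos volume I one_pos).ne'
  have : mG.IsHaarMeasure := {}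
  have hmul := fun a b : SL(2, ℝ) => Measure.modularCharacterFun_map_mul a b
  have hn : ∀ x : ℝ, Measure.modularCharacterFun (nM x) = 1 := by
    intro x
    have h1 := hna x (-Real.log 2)
    rw [neg_neg, Real.exp_log two_pos] at h1
    have h2 := congrArg Measure.modularCharacterFun h1
    rw [hmul, hmul, two_mul, hnA, hmul, mul_comm] at h2
    have ha := (Measure.modularCharacterFun_pos (aM (-Real.log 2))).ne'
    have hc := (Measure.modularCharacterFun_pos (nM x)).ne'
    have h3 := mul_left_cancel₀ ha h2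
    have h4 : Measure.modularCharacterFun (nM x) * 1 =
      Measure.modularCharacterFun (nM x) * Measure.modularCharacterFun (nM x) := by
      rw [mul_one]
      exact h3
    exact (mul_left_cancel₀ hc h4).symm
  have hl : ∀ x : ℝ, Measure.modularCharacterFun (lM x) = 1 := by
    intro x
    have h1 := hla x (Real.log 2)
    rw [Real.exp_log two_pos] at h1
    have h2 := congrArg Measure.modularCharacterFun h1
    rw [hmul, hmul, two_mul, hlA, hmul, mul_comm] at h2
    have ha := (Measure.modularCharacterFun_pos (aM (Real.log 2))).ne'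
    have hc := (Measure.modularCharacterFun_pos (lM x)).ne'
    have h3 := mul_left_cancel₀ ha h2
    have h4 : Measure.modularCharacterFun (lM x) * 1 =
      Measure.modularCharacterFun (lM x) * Measure.modularCharacterFun (lM x) := by
      rw [mul_one]
      exact h3
    exact (mul_left_cancel₀ hc h4).symm
  have h1 : ∀ g : SL(2, ℝ), g 1 0 ≠ 0 → Measure.modularCharacterFun g = 1 := by
    intro g hg
    rw [GRI_dec g hg, hmul, hmul, hn, hn, hl, one_mul, one_mul]
  have key : ∀ g : SL(2, ℝ), Measure.modularCharacterFun g = 1 := by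
    intro g
    by_cases hg : g 1 0 = 0
    · have hdet : g 0 0 * g 1 1 - g 0 1 * g 1 0 = 1 := by
        have h := g.det_coe
        rw [Matrix.det_fin_two] at h
        exact h
      rw [hg, mul_zero, sub_zero] at hdet
      have h00 : g 0 0 ≠ 0 := left_ne_zero_of_mul (by rw [hdet]; exact one_ne_zero)
      have h2 : (lM 1 * g) 1 0 ≠ 0 := by
        have h3 : (lM 1 * g) 1 0 = g 0 0 := by
          rw [Matrix.SpecialLinearGroup.coe_mul, Matrix.mul_apply, Fin.sum_univ_two]
          change (1 : ℝ) * g 0 0 + 1 * g 1 0 = g 0 0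
          rw [hg]
          ring
        rw [h3]
        exact h00
      have h4 := h1 _ h2
      rw [hmul, hl, one_mul] at h4
      exact h4
    · exact h1 g hg
  intro h
  rw [Measure.map_right_mul_eq_modularCharacterFun_smul mG h, key h, one_smul]

end Pool.Agent.RS
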