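import Pool.Agent.helper29.RS.SpecK
import Pool.Agent.helper62.QU.All

set_option autoImplicit false

open scoped MatrixGroups ContDiff Topology UpperHalfPlane ComplexConjugate
open UpperHalfPlane MeasureTheory Filter Set

namespace Pool.Agent.RS

theorem TRV_norm (r : ℝ) (c : ℍ → ℂ) (z : ℍ) : ‖pk r c z‖ = ‖c z‖ * z.im ^ (1 / 2 : ℝ) := by
  unfold pk
  rw [norm_mul, Complex.norm_cpow_eq_rpow_re_of_pos z.im_pos]
  congr 2
  simp

theorem TRV (hFL0 : FL0_stmt) (hGYN : GYN_stmt) : TRV_stmt := by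
  intro c hc
  refine ⟨(∫ z : ℍ, ‖pk 0 c z‖) ^ 2, sq_nonneg _, ?_⟩
  intro Γ F r φ hΓ hF hφ
  obtain ⟨h1, h2⟩ := hFL0.2.1 (1 / 4) r c hc
  have hA := QU.A_CA1 ℂ
  have hcont : Continuous (pk r c) :=
    (hA.1 (pk r c)).1 (hA.2.1 (pk r c) 0 ∞ (by simp) h1)
  have h := hGYN Γ F (pk r c) φ hΓ hF hcont h2 hφ
  have h3 : ∀ z : ℍ, ‖pk r c z‖ = ‖pk 0 c z‖ := fun z => by rw [TRV_norm, TRV_norm]
  simp only [h3] at h
  exact h

end Pool.Agent.RS
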